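import Pool.Agent.Lib.MP_b6294e.Final

/-!
# Bezout relations for coprime polynomials over a fraction field
-/

set_option linter.style.haveILetI false

namespace Pool.Agent.MP_b6294e_ht

open Polynomial Pool.Agent.MP_b6294e

theorem bez_aux {F : Type*} [Field F] (f g : F[X]) (d : ℕ) (hco : IsCoprime f g)
    (hf : f.natDegree = d + 1) (hg : g.natDegree ≤ d + 1) (p : F[X])
    (hp : p.natDegree ≤ 2 * d + 1) :
    ∃ u v : F[X], u.natDegree ≤ d ∧ v.natDegree ≤ d ∧ u * f + v * g = p := by
  obtain ⟨u0, v0, h0⟩ := hco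
  have hf0 : f ≠ 0 := by
    rintro rfl
    simp at hf
  have hvd : ((p * v0) % f).natDegree ≤ d := by
    have h1 := natDegree_mod_lt (p * v0) (q := f) (by omega)
    omega
  have heq : (p * u0 + (p * v0) / f * g) * f + (p * v0) % f * g = p := by
    have h2 := EuclideanDomain.mod_add_div (p * v0) f
    linear_combination p * h0 + g * h2
  refine ⟨_, _, ?_, hvd, heq⟩
  set u := p * u0 + (p * v0) / f * g with hu
  by_cases hu0 : u = 0
  · rw [hu0, natDegree_zero]
    exact Nat.zero_le _
  have h3 : (u * f).natDegree ≤ 2 * d + 1 := by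
    have h4 : u * f = p - (p * v0) % f * g := by linear_combination heq
    rw [h4]
    refine (natDegree_sub_le _ _).trans (max_le hp ?_)
    refine natDegree_mul_le.trans ?_
    omega
  rw [natDegree_mul hu0 hf0, hf] at h3
  omega

theorem bez {F : Type*} [Field F] (f g : F[X]) (d : ℕ) (hco : IsCoprime f g)
    (hfg : max f.natDegree g.natDegree = d + 1) (p : F[X]) (hp : p.natDegree ≤ 2 * d + 1) :
    ∃ u v : F[X], u.natDegree ≤ d ∧ v.natDegree ≤ d ∧ u * f + v * g = p := by
  rcases le_total f.natDegree g.natDegree with h | h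
  · rw [max_eq_right h] at hfg
    obtain ⟨u, v, hu, hv, huv⟩ := bez_aux g f d hco.symm hfg (by omega) p hp
    exact ⟨v, u, hv, hu, by rw [← huv]; ring⟩
  · rw [max_eq_left h] at hfg
    exact bez_aux f g d hco hfg (by omega) p hp

/-- The condition on a fibre map of large degree. -/
def Fast {S : Type*} [CommRing S] [IsDomain S] (a b : S[X]) : Prop :=
  IsCoprime (a.map (algebraMap S (FractionRing S))) (b.map (algebraMap S (FractionRing S))) ∧
    2 ≤ max a.natDegree b.natDegree

section

variable {S : Type*} [CommRing S] [IsDomain S]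

theorem exists_denom4 {L : Type*} [Field L] [Algebra S L] [IsFractionRing S L]
    (p1 p2 p3 p4 : L[X]) : ∃ (s : S) (P1 P2 P3 P4 : S[X]), s ≠ 0 ∧
      P1.map (algebraMap S L) = C (algebraMap S L s) * p1 ∧
      P2.map (algebraMap S L) = C (algebraMap S L s) * p2 ∧
      P3.map (algebraMap S L) = C (algebraMap S L s) * p3 ∧
      P4.map (algebraMap S L) = C (algebraMap S L s) * p4 := by
  obtain ⟨s1, P1, h1, e1⟩ := exists_denom (A := S) p1
  obtain ⟨s2, P2, h2, e2⟩ := exists_denom (A := S) p2
  obtain ⟨s3, P3, h3, e3⟩ := exists_denom (A := S) p3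
  obtain ⟨s4, P4, h4, e4⟩ := exists_denom (A := S) p4
  refine ⟨s1 * s2 * s3 * s4, C (s2 * s3 * s4) * P1, C (s1 * s3 * s4) * P2,
    C (s1 * s2 * s4) * P3, C (s1 * s2 * s3) * P4,
    mul_ne_zero (mul_ne_zero (mul_ne_zero h1 h2) h3) h4, ?_, ?_, ?_, ?_⟩ <;>
  · simp only [Polynomial.map_mul, map_C, e1, e2, e3, e4, map_mul]
    ring

omit [IsDomain S] in
theorem natDegree_of_map {L : Type*} [Field L] [Algebra S L] [IsFractionRing S L]
    {P : S[X]} {p : L[X]} {c : L} (h : P.map (algebraMap S L) = C c * p) :
    P.natDegree ≤ p.natDegree := by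
  rw [← natDegree_map_eq_of_injective (IsFractionRing.injective S L) P, h]
  exact natDegree_C_mul_le _ _

theorem bez_data (a b : S[X]) (h : Fast a b) (d : ℕ) (hd : max a.natDegree b.natDegree = d + 1) :
    ∃ (u v u' v' : S[X]) (r : S), r ≠ 0 ∧ u.natDegree ≤ d ∧ v.natDegree ≤ d ∧
      u'.natDegree ≤ d ∧ v'.natDegree ≤ d ∧ u * a + v * b = C r ∧
      u' * a + v' * b = C r * X ^ (2 * d + 1) := by
  obtain ⟨hco, -⟩ := h
  set L := FractionRing S
  have hinj := IsFractionRing.injective S L
  have hfg : max (a.map (algebraMap S L)).natDegree (b.map (algebraMap S L)).natDegree = d + 1 := by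
    rw [natDegree_map_eq_of_injective hinj, natDegree_map_eq_of_injective hinj, hd]
  obtain ⟨u, v, hu, hv, huv⟩ := bez _ _ d hco hfg 1 (by rw [natDegree_one]; omega)
  obtain ⟨u', v', hu', hv', huv'⟩ := bez _ _ d hco hfg (X ^ (2 * d + 1))
    (by rw [natDegree_X_pow])
  obtain ⟨s, P1, P2, P3, P4, hs, e1, e2, e3, e4⟩ := exists_denom4 (S := S) u v u' v'
  refine ⟨P1, P2, P3, P4, s, hs, (natDegree_of_map e1).trans hu, (natDegree_of_map e2).trans hv,
    (natDegree_of_map e3).trans hu', (natDegree_of_map e4).trans hv', ?_, ?_⟩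
  · apply map_injective _ hinj
    rw [Polynomial.map_add, Polynomial.map_mul, Polynomial.map_mul, e1, e2, map_C]
    linear_combination C (algebraMap S L s) * huv
  · apply map_injective _ hinj
    rw [Polynomial.map_add, Polynomial.map_mul, Polynomial.map_mul, e3, e4, Polynomial.map_mul,
      map_C, Polynomial.map_pow, map_X]
    linear_combination C (algebraMap S L s) * huv'

theorem Fast.b_ne_zero {a b : S[X]} (h : Fast a b) : b ≠ 0 := by
  rintro rfl
  obtain ⟨hco, hd⟩ := h
  rw [Polynomial.map_zero, isCoprime_zero_right] at hco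
  have h1 := natDegree_eq_zero_of_isUnit hco
  rw [natDegree_map_eq_of_injective (IsFractionRing.injective S (FractionRing S))] at h1
  rw [h1, natDegree_zero] at hd
  omega

theorem Fast.wr_ne_zero [CharZero S] {a b : S[X]} (h : Fast a b) : wr a b ≠ 0 := by
  obtain ⟨hco, hd⟩ := h
  set L := FractionRing S
  have hinj := IsFractionRing.injective S L
  intro h0
  have h1 : derivative (a.map (algebraMap S L)) * b.map (algebraMap S L) =
      a.map (algebraMap S L) * derivative (b.map (algebraMap S L)) := by
    have h2 := congrArg (Polynomial.map (algebraMap S L)) h0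
    unfold wr at h2
    rw [Polynomial.map_sub, Polynomial.map_mul, Polynomial.map_mul, ← derivative_map,
      ← derivative_map, Polynomial.map_zero, sub_eq_zero] at h2
    exact h2
  haveI : CharZero L := charZero_of_injective_algebraMap hinj
  have hdeg : ∀ p : L[X], p ∣ derivative p → p.natDegree = 0 := by
    intro p hp
    by_contra hne
    have h3 : derivative p ≠ 0 := by
      intro h4
      exact hne (derivative_eq_zero.mp h4)
    have h4 := natDegree_le_of_dvd hp h3
    have h5 := natDegree_derivative_lt hne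
    omega
  have ha : (a.map (algebraMap S L)).natDegree = 0 :=
    hdeg _ (hco.dvd_of_dvd_mul_right ⟨_, h1⟩)
  have hb : (b.map (algebraMap S L)).natDegree = 0 :=
    hdeg _ (hco.symm.dvd_of_dvd_mul_left ⟨derivative (a.map (algebraMap S L)), by
      rw [← h1]; ring⟩)
  rw [natDegree_map_eq_of_injective hinj] at ha hb
  rw [ha, hb] at hd
  simp at hd

end

end Pool.Agent.MP_b6294e_ht
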