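import Pool.Agent.Lib.MP_b6294e_ht.Growth
import Pool.Agent.Lib.MP_b6294e.StepM

/-!
# Adding a coordinate whose fibre degree is larger than all earlier degrees
-/

set_option linter.style.haveILetI false

namespace Pool.Agent.MP_b6294e_ht

open Height MvPolynomial Pool.Agent.MP_b6294e

universe u

section Transfer

variable {R : Type*} [CommRing R] {k K : Type*} [Field k] [Field K] [Algebra R k] [Algebra R K]

theorem Phi_map (φ : k →ₐ[R] K) (a b : ∀ i : ℕ, Polynomial (MvPolynomial (Fin i) R)) (x : ℕ → k) :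
    φ ∘ (Phi a b x) = Phi a b (φ ∘ x) := by
  funext i
  rw [Function.comp_apply, Phi_apply, Phi_apply, map_div₀, map_EP, map_EP]
  rfl

theorem Phi_iter_map (φ : k →ₐ[R] K) (a b : ∀ i : ℕ, Polynomial (MvPolynomial (Fin i) R))
    (x : ℕ → k) (t : ℕ) : φ ∘ ((Phi a b)^[t] x) = (Phi a b)^[t] (φ ∘ x) := by
  induction t with
  | zero => rfl
  | succ t ih => rw [Function.iterate_succ_apply', Function.iterate_succ_apply', Phi_map, ih]

end Transfer

/-- A number field containing the coefficients and finitely many given elements. -/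
theorem exists_numberField (R K : Type u) [CommRing R] [Algebra.FiniteType ℤ R] [Field K]
    [CharZero K] [Algebra R K] (halg : Algebra.IsAlgebraic ℚ K) (s : Finset K) :
    ∃ (k : Type u) (_ : Field k) (_ : NumberField k) (_ : Algebra R k) (φ : k →ₐ[R] K),
      ∀ z ∈ s, ∃ z' : k, φ z' = z := by
  classical
  obtain ⟨g, hg⟩ := (Algebra.FiniteType.out : (⊤ : Subalgebra ℤ R).FG)
  let F0 : Finset K := g.image (algebraMap R K) ∪ s
  let k0 : IntermediateField ℚ K := IntermediateField.adjoin ℚ (F0 : Set K)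
  haveI hfd : FiniteDimensional ℚ k0 :=
    IntermediateField.finiteDimensional_adjoin fun x _ => (halg.isAlgebraic x).isIntegral
  have hmem : ∀ r : R, algebraMap R K r ∈ k0 := by
    intro r
    have hr : r ∈ Algebra.adjoin ℤ (g : Set R) := by
      rw [hg]
      exact Algebra.mem_top
    induction hr using Algebra.adjoin_induction with
    | mem x hx =>
      apply IntermediateField.subset_adjoin
      exact Finset.mem_coe.mpr (Finset.mem_union_left _ (Finset.mem_image_of_mem _ hx))
    | algebraMap n =>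
      rw [eq_intCast, map_intCast]
      exact intCast_mem k0 n
    | add x y _ _ hx hy =>
      rw [map_add]
      exact add_mem hx hy
    | mul x y _ _ hx hy =>
      rw [map_mul]
      exact mul_mem hx hy
  let f : R →+* k0 := (algebraMap R K).codRestrict k0.toSubfield.toSubring hmem
  letI : Algebra R k0 := f.toAlgebra
  haveI : NumberField k0 := { to_charZero := inferInstance, to_finiteDimensional := hfd }
  refine ⟨k0, inferInstance, inferInstance, inferInstance,
    { (k0.val : k0 →+* K) with commutes' := fun r => rfl }, fun z hz => ?_⟩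
  have hz' : z ∈ k0 := IntermediateField.subset_adjoin ℚ _
    (Finset.mem_coe.mpr (Finset.mem_union_right _ hz))
  exact ⟨⟨z, hz'⟩, rfl⟩

section

variable (R K : Type u) [CommRing R] [Algebra.FiniteType ℤ R] [Field K] [CharZero K]
  [Algebra R K] (T : Type u) [CommRing T] [IsDomain T] [Algebra R T] [Algebra.IsIntegral R T]
  (iT : T →ₐ[R] K)

theorem good_succ_H (halg : Algebra.IsAlgebraic ℚ K)
    (hiT : Function.Injective iT) [IsJacobsonRing T] (hTF : ¬ IsField T)
    (hcl : ∀ (M : Ideal T) [hM : M.IsMaximal],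
      letI := Ideal.Quotient.field M; IsAlgClosed (T ⧸ M))
    (a b : ∀ i : ℕ, Polynomial (MvPolynomial (Fin i) R)) (n d : ℕ) (hd1 : 1 ≤ d)
    (hD : ∀ i < n, (a i).natDegree ≤ d ∧ (b i).natDegree ≤ d)
    (u v u' v' : Polynomial (MvPolynomial (Fin n) R)) (r : MvPolynomial (Fin n) R)
    (hu : u.natDegree ≤ d) (hv : v.natDegree ≤ d) (hu' : u'.natDegree ≤ d)
    (hv' : v'.natDegree ≤ d)
    (h1 : u * a n + v * b n = Polynomial.C r)
    (h2 : u' * a n + v' * b n = Polynomial.C r * Polynomial.X ^ (2 * d + 1))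
    (hr : ∃ μ, IsUnit (coeff μ r))
    (hb : ∀ i < n + 1, ∃ j μ, IsUnit (coeff μ ((b i).coeff j)))
    (hw : ∀ i < n + 1, ∃ j μ, IsUnit (coeff μ ((wr (a i) (b i)).coeff j)))
    (G : MvPolynomial (Fin (n + 1)) R) (hG : ∃ μ, IsUnit (coeff μ G))
    (hn : Good R K T iT a b n) : GoodAt R K T iT a b (n + 1) G := by
  classical
  intro S hS z
  set r' : MvPolynomial (Fin (n + 1)) R := rename Fin.castSucc r with hr'
  have hEr : ∀ {A : Type u} [CommRing A] [Algebra R A] (x : ℕ → A), E x (n + 1) r' = E x n r := by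
    intro A _ _ x
    unfold E
    rw [hr', aeval_rename]
    rfl
  have hru : ∃ μ, IsUnit (coeff μ r') := by
    obtain ⟨μ, hμ⟩ := hr
    exact ⟨μ.mapDomain Fin.castSucc, by
      rw [hr', coeff_rename_mapDomain _ (Fin.castSucc_injective n)]
      exact hμ⟩
  obtain ⟨M, M', kk, _, _, π, F, xb, T0, α', hM, hM', hMS, hM'S, hMM', hπM, hπs, hx1, hx2, hx3,
    hxG, hT0, hper, hα1, hα2, hα3, hL⟩ := base_data R K T iT hiT hTF hcl a b n (n + 1)
    (Nat.le_succ n) hb hw (G * r') (fun k _ _ => by
      rw [map_mul]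
      exact mul_ne_zero (map_ne_zero_of_isUnit _ hG) (map_ne_zero_of_isUnit _ hru)) hn S hS z
  obtain ⟨w, hw'⟩ := hπs (xb n)
  obtain ⟨β, hβM, -, hβS⟩ := crt T S hS M M' hM hM' hMS hM'S hMM' (fun M0 => z M0 n) w 1
  obtain ⟨γ, hγM, hγM', hγS⟩ := crt T S hS M M' hM hM' hMS hM'S hMM' (fun _ => 0) 0 1
  have hγ0 : γ ≠ 0 := by
    rintro rfl
    rw [zero_sub] at hγM'
    exact hM'.ne_top ((Ideal.eq_top_iff_one _).mpr ((Ideal.neg_mem_iff _).mp hγM'))
  have hiγ : iT γ ≠ 0 := fun h => hγ0 (hiT (by rw [h, map_zero]))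
  let βj : ℕ → T := fun j => β + j * γ
  let αj : ℕ → ℕ → K := fun j => Function.update α' n (iT (βj j))
  have hlow : ∀ j, ∀ i < n, αj j i = α' i := fun j i hi => Function.update_of_ne (by omega) _ _
  have hαn : ∀ j, αj j n = iT (βj j) := fun j => Function.update_self _ _ _
  have hΦ : ∀ j t, ∀ i < n, (Phi a b)^[t] (αj j) i = (Phi a b)^[t] α' i := fun j t =>
    Phi_iter_congr a b n (hlow j) t
  have hloc : ∀ j, ∃ (L : LocModel R K kk) (x0 : ℕ → L.A),
      (∀ i < n + 1, L.ι (x0 i) = αj j i) ∧ (∀ i < n + 1, L.ρ (x0 i) = xb i) := by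
    intro j
    obtain ⟨L, x0, hx0, hLs⟩ := hL {βj j, 1}
    obtain ⟨βA, hβA, hβA'⟩ := hLs (βj j) (by simp) 1 (by simp)
      (by rw [map_one]; exact one_ne_zero)
    rw [map_one, mul_one] at hβA hβA'
    refine ⟨L, Function.update x0 n βA, ?_, ?_⟩
    · intro i hi
      rcases Nat.lt_succ_iff_lt_or_eq.mp hi with h | h
      · rw [Function.update_of_ne (by omega), (hx0 i h).1, hlow j i h]
      · subst h
        rw [Function.update_self, hβA, hαn]
    · intro i hi
      rcases Nat.lt_succ_iff_lt_or_eq.mp hi with h | h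
      · rw [Function.update_of_ne (by omega), (hx0 i h).2]
      · subst h
        have e1 := (hπM _).mp hβM
        have e2 := (hπM _).mp hγM
        rw [sub_zero] at e2
        rw [map_sub, sub_eq_zero] at e1
        rw [Function.update_self, hβA', ← hw', ← e1]
        simp only [βj]
        rw [map_add, map_mul, e2, mul_zero, add_zero]
  have hdef : ∀ j, ∀ i < n + 1, ∀ Q : Polynomial (MvPolynomial (Fin i) R),
      EP xb i Q (xb i) ≠ 0 → ∀ t,
      EP ((Phi a b)^[t] (αj j)) i Q ((Phi a b)^[t] (αj j) i) ≠ 0 := by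
    intro j i hi Q hQ t
    obtain ⟨L, x0, hx0, hx0'⟩ := hloc j
    exact local_defined a b (n + 1) L.ι L.inj L.ρ L.mem F xb hx1 hx2 (αj j) x0 hx0 hx0' i hi Q hQ t
  have hGr : ∀ j t, E ((Phi a b)^[t] (αj j)) (n + 1) (G * r') ≠ 0 := by
    intro j t
    obtain ⟨L, x0, hx0, hx0'⟩ := hloc j
    exact local_ne_zero a b (n + 1) L.ι L.inj L.ρ L.mem F xb hx1 hx2 (αj j) x0 hx0 hx0' (G * r')
      hxG t
  -- the number field
  obtain ⟨k, _, _, _, φ, hφ⟩ := exists_numberField R K halg
    ((Finset.range n).image α' ∪ {iT β, iT γ})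
  have hφi : Function.Injective φ := (φ : k →+* K).injective
  have hx0 : ∀ i, ∃ z' : k, i < n → φ z' = α' i := by
    intro i
    by_cases hi : i < n
    · obtain ⟨z', hz'⟩ := hφ (α' i) (Finset.mem_union_left _
        (Finset.mem_image_of_mem _ (Finset.mem_range.mpr hi)))
      exact ⟨z', fun _ => hz'⟩
    · exact ⟨0, fun h => absurd h hi⟩
  choose x0 hx0 using hx0
  obtain ⟨β', hβ'⟩ := hφ (iT β) (Finset.mem_union_right _ (by simp))
  obtain ⟨γ', hγ'⟩ := hφ (iT γ) (Finset.mem_union_right _ (by simp))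
  have hγ'0 : γ' ≠ 0 := by
    rintro rfl
    rw [map_zero] at hγ'
    exact hiγ hγ'.symm
  -- orbits in the number field
  have hxt : ∀ t, ∀ i < n, φ ((Phi a b)^[t] x0 i) = (Phi a b)^[t] α' i := by
    intro t i hi
    have e1 := congrFun (Phi_iter_map φ a b x0 t) i
    rw [Function.comp_apply] at e1
    rw [e1]
    exact Phi_iter_congr a b n (fun i hi => hx0 i hi) t i hi
  have hbase : ∀ t (Q : MvPolynomial (Fin n) R), φ (E ((Phi a b)^[t] x0) n Q) =
      E ((Phi a b)^[t] α') n Q := by
    intro t Q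
    rw [map_E, E_congr (x := φ ∘ (Phi a b)^[t] x0) (fun j hj => hxt t j hj)]
  obtain ⟨B, hB⟩ := start (k := k) a b n d hd1 hD u v u' v' r hu hv hu' hv' h1 h2
    (fun t => (Phi a b)^[t] x0)
    (fun t i _ => by rw [Function.iterate_succ_apply', Phi_apply])
    (fun t h0 => by
      have e1 := hGr 0 t
      rw [map_mul, hEr, E_congr (fun j hj => hΦ 0 t j hj), ← hbase t r, h0, map_zero,
        mul_zero] at e1
      exact e1 rfl)
    (fun Q hQ => by
      have e1 : map (φ : k →+* K) Q = 0 := by
        apply hα3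
        intro t
        have e2 : (fun j : Fin n => (Phi a b)^[t] α' j) =
            (φ : k →+* K) ∘ fun j : Fin n => (Phi a b)^[t] x0 j := by
          funext j
          exact (hxt t j j.2).symm
        rw [e2, eval_map, ← eval₂_comp, hQ t, map_zero]
      exact (map_eq_zero_iff _ (map_injective (φ : k →+* K) hφi)).mp e1)
  -- choice of the fibre coordinate
  obtain ⟨j, hj⟩ : ∃ j : ℕ, B < logHeight₁ (β' + j * γ') := by
    by_contra hcon
    push Not at hcon
    have hfin := NumberField.finite_setOfPred_logHeight₁_le k B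
    have hinj : Function.Injective fun j : ℕ => β' + j * γ' := by
      intro i j hij
      have e1 := mul_right_cancel₀ hγ'0 (add_left_cancel hij)
      exact_mod_cast e1
    exact (Set.infinite_range_of_injective hinj) (hfin.subset (by
      rintro _ ⟨j, rfl⟩
      exact hcon j))
  set y0 : ℕ → k := Function.update x0 n (β' + j * γ') with hy0
  have hyα : ∀ i < n + 1, (φ ∘ y0) i = αj j i := by
    intro i hi
    rcases Nat.lt_succ_iff_lt_or_eq.mp hi with h | h
    · rw [Function.comp_apply, hy0, Function.update_of_ne (by omega), hx0 i h, hlow j i h]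
    · subst h
      rw [Function.comp_apply, hy0, Function.update_self, hαn, map_add, map_mul, map_natCast, hβ',
        hγ']
      simp only [βj]
      rw [map_add, map_mul, map_natCast]
  have hyt : ∀ t, ∀ i < n + 1, φ ((Phi a b)^[t] y0 i) = (Phi a b)^[t] (αj j) i := by
    intro t i hi
    have e1 := congrFun (Phi_iter_map φ a b y0 t) i
    rw [Function.comp_apply] at e1
    rw [e1]
    exact Phi_iter_congr a b (n + 1) hyα t i hi
  have hy00 : ∀ i < n, y0 i = x0 i := fun i hi => by
    rw [hy0]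
    exact Function.update_of_ne (by omega) _ _
  have hyx : ∀ t, ∀ i < n, (Phi a b)^[t] y0 i = (Phi a b)^[t] x0 i := fun t =>
    Phi_iter_congr a b n hy00 t
  have hEPy : ∀ t (Q : Polynomial (MvPolynomial (Fin n) R)) (y : k),
      EP ((Phi a b)^[t] y0) n Q y = EP ((Phi a b)^[t] x0) n Q y := fun t Q y =>
    EP_congr (hyx t) Q y
  have hfin := hB (fun t => (Phi a b)^[t] y0 n)
    (by
      simp only [Function.iterate_zero, id_eq]
      rw [hy0, Function.update_self]
      exact hj)
    (by
      intro t h0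
      have e1 := hdef j n (Nat.lt_succ_self n) (b n) (hx2 n (Nat.lt_succ_self n)) t
      apply e1
      rw [← hEPy] at h0
      have e2 := congrArg φ h0
      rw [map_zero, map_EP, hyt t n (Nat.lt_succ_self n)] at e2
      rw [← e2]
      exact EP_congr (fun i hi => (hyt t i (by omega)).symm) _ _)
    (by
      intro t
      rw [Function.iterate_succ_apply', Phi_apply, hEPy, hEPy])
  refine ⟨αj j, ?_, ?_, ?_, ?_⟩
  · intro M0 hM0 i hi
    rcases Nat.lt_succ_iff_lt_or_eq.mp hi with h | h
    · rw [hlow j i h]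
      exact hα1 M0 hM0 i h
    · subst h
      rw [hαn]
      refine ⟨βj j, 1, ?_, by rw [map_one, mul_one], ?_⟩
      · intro h1
        exact (hS M0 hM0).ne_top ((Ideal.eq_top_iff_one _).mpr h1)
      · have h1 := hβS M0 hM0
        have h2 := hγS M0 hM0
        rw [sub_zero] at h2
        have h3 : βj j - z M0 i * 1 = (β - z M0 i) + j * γ := by
          simp only [βj]
          ring
        rw [h3]
        exact Ideal.add_mem _ h1 (Ideal.mul_mem_left _ _ h2)
  · intro t i hi
    exact hdef j i hi (b i) (hx2 i hi) t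
  · intro P hP
    by_contra hP0
    letI : Algebra k K := (φ : k →+* K).toAlgebra
    obtain ⟨μ, hμ⟩ := MvPolynomial.exists_coeff_ne_zero hP0
    obtain ⟨ψ, hψ⟩ : ∃ ψ : K →ₗ[k] k, ψ (coeff μ P) ≠ 0 := by
      by_contra hcon
      push Not at hcon
      exact hμ ((Module.forall_dual_apply_eq_zero_iff k _).mp hcon)
    have hne : mapCoeff ψ P ≠ 0 := by
      intro h0
      apply hψ
      rw [← coeff_mapCoeff, h0, coeff_zero]
    refine lastVar_ne_zero hne (hfin _ fun t => ?_)
    have e1 : eval (fun i : Fin (n + 1) => (Phi a b)^[t] y0 i) (mapCoeff ψ P) = 0 := by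
      rw [eval_mapCoeff]
      have e2 : (fun i : Fin (n + 1) => algebraMap k K ((Phi a b)^[t] y0 i)) =
          fun i : Fin (n + 1) => (Phi a b)^[t] (αj j) i := by
        funext i
        exact hyt t i i.2
      rw [e2, hP t, map_zero]
    rw [eval_lastVar] at e1
    rw [← e1]
    congr 3
    funext i
    exact (hyx t i i.2).symm
  · intro t h0
    have e1 := hGr j t
    rw [map_mul, h0, zero_mul] at e1
    exact e1 rfl

end

end Pool.Agent.MP_b6294e_ht
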