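import Pool.Agent.Lib.MP_b6294e_ht.Ht
import Pool.Agent.Lib.MP_b6294e.Stage
import Pool.Agent.Lib.MP_b6294e.ResPoint

/-!
# Growth of heights along orbits of triangular maps
-/

set_option linter.style.haveILetI false

namespace Pool.Agent.MP_b6294e_ht

open Height MvPolynomial Pool.Agent.MP_b6294e

section Real

theorem upper_rec (h : ℕ → ℝ) (D ρ C : ℝ) (hD : 0 ≤ D) (hρ : D < ρ) (hρ1 : 1 ≤ ρ)
    (hrec : ∀ t, h (t + 1) ≤ D * h t + C * ρ ^ t) :
    ∃ L : ℝ, 0 ≤ L ∧ ∀ t, h t ≤ L * ρ ^ t := by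
  refine ⟨max (max (h 0) 0) (C / (ρ - D)), le_max_of_le_left (le_max_right _ _), fun t => ?_⟩
  set L := max (max (h 0) 0) (C / (ρ - D)) with hL
  have h1 : C / (ρ - D) ≤ L := le_max_right _ _
  have h2 : C ≤ L * (ρ - D) := by
    rw [div_le_iff₀ (by linarith)] at h1
    exact h1
  induction t with
  | zero =>
    rw [pow_zero, mul_one]
    exact (le_max_left _ _).trans (le_max_left _ _)
  | succ t ih =>
    have h3 : 0 < ρ ^ t := by positivity
    calc h (t + 1) ≤ D * h t + C * ρ ^ t := hrec t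
      _ ≤ D * (L * ρ ^ t) + (L * (ρ - D)) * ρ ^ t := by
        gcongr
      _ = L * ρ ^ (t + 1) := by ring

theorem lower_rec (h : ℕ → ℝ) (d ρ C : ℝ) (hρ : ρ < d) (hρ1 : 1 ≤ ρ) (hC : 0 ≤ C)
    (hrec : ∀ t, d * h t ≤ h (t + 1) + C * ρ ^ t) (t : ℕ) :
    (h 0 - C / (d - ρ)) * d ^ t ≤ h t := by
  set L := C / (d - ρ) with hL
  have hL0 : 0 ≤ L := div_nonneg hC (by linarith)
  have hLC : L * (d - ρ) = C := by
    rw [hL, div_mul_cancel₀]
    linarith
  have key : ∀ t, L * ρ ^ t + (h 0 - L) * d ^ t ≤ h t := by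
    intro t
    induction t with
    | zero => simp
    | succ t ih =>
      have h1 := hrec t
      have hd : 0 ≤ d := by linarith
      have h2 := mul_le_mul_of_nonneg_left ih hd
      have h3 : d * (L * ρ ^ t + (h 0 - L) * d ^ t) =
          L * ρ ^ (t + 1) + (h 0 - L) * d ^ (t + 1) + (L * (d - ρ)) * ρ ^ t := by ring
      rw [h3, hLC] at h2
      linarith
  have h4 : 0 ≤ L * ρ ^ t := by positivity
  linarith [key t]

end Real

section Orbit

variable {R : Type*} [CommRing R] {k : Type*} [Field k] [AdmissibleAbsValues k] [Algebra R k]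

/-- Heights along an orbit of a triangular map grow at most like `ρ ^ t`. -/
theorem growth (a b : ∀ i : ℕ, Polynomial (MvPolynomial (Fin i) R)) (n D : ℕ)
    (hD : ∀ i < n, (a i).natDegree ≤ D ∧ (b i).natDegree ≤ D) (ρ : ℝ) (hρ : D < ρ) (hρ1 : 1 ≤ ρ)
    (x : ℕ → ℕ → k)
    (hx : ∀ t, ∀ i < n, x (t + 1) i = EP (x t) i (a i) (x t i) / EP (x t) i (b i) (x t i)) :
    ∃ L : ℝ, 0 ≤ L ∧ ∀ t, S (x t) n ≤ L * ρ ^ t := by
  have h1 : ∀ i, i < n → ∃ L : ℝ, 0 ≤ L ∧ ∀ t, logHeight₁ (x t i) ≤ L * ρ ^ t := by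
    intro i
    induction i using Nat.strong_induction_on with
    | _ i ih =>
      intro hi
      have h2 : ∃ L : ℝ, 0 ≤ L ∧ ∀ t, S (x t) i ≤ L * ρ ^ t := by
        have h3 : ∀ j : Fin i, ∃ L : ℝ, 0 ≤ L ∧ ∀ t, logHeight₁ (x t j) ≤ L * ρ ^ t :=
          fun j => ih j j.2 (j.2.trans hi)
        choose L hL0 hL using h3
        refine ⟨1 + ∑ j, L j, ?_, fun t => ?_⟩
        · have := Finset.sum_nonneg fun j (_ : j ∈ (Finset.univ : Finset (Fin i))) => hL0 j
          linarith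
        · unfold S
          rw [Finset.sum_range, add_mul, Finset.sum_mul, one_mul]
          exact add_le_add (one_le_pow₀ hρ1) (Finset.sum_le_sum fun j _ => hL j t)
      obtain ⟨L, hL0, hL⟩ := h2
      obtain ⟨C, hC, hb⟩ := upper (k := k) i D (a i) (b i) (hD i hi).1 (hD i hi).2
      refine upper_rec (fun t => logHeight₁ (x t i)) D ρ (C * L) (Nat.cast_nonneg _) hρ hρ1
        fun t => ?_
      have h4 := hb (x t) (x t i)
      rw [← hx t i hi] at h4
      have h5 := mul_le_mul_of_nonneg_left (hL t) hC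
      linarith
  have h3 : ∀ j : Fin n, ∃ L : ℝ, 0 ≤ L ∧ ∀ t, logHeight₁ (x t j) ≤ L * ρ ^ t := fun j => h1 j j.2
  choose L hL0 hL using h3
  refine ⟨1 + ∑ j, L j, ?_, fun t => ?_⟩
  · have := Finset.sum_nonneg fun j (_ : j ∈ (Finset.univ : Finset (Fin n))) => hL0 j
    linarith
  · unfold S
    rw [Finset.sum_range, add_mul, Finset.sum_mul, one_mul]
    exact add_le_add (one_le_pow₀ hρ1) (Finset.sum_le_sum fun j _ => hL j t)

end Orbit

section Tail

variable {k : Type*} [Field k]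

/-- Density of the tail of a dense sequence. -/
theorem dense_tail (n : ℕ) (x : ℕ → ℕ → k)
    (dens : ∀ Q : MvPolynomial (Fin n) k, (∀ t, eval (fun j : Fin n => x t j) Q = 0) → Q = 0)
    (Q : MvPolynomial (Fin n) k) (hQ : Q ≠ 0) (t0 : ℕ) :
    ∃ t, t0 ≤ t ∧ eval (fun j : Fin n => x t j) Q ≠ 0 := by
  rcases n with _ | m
  · refine ⟨t0, le_rfl, fun h => hQ ?_⟩
    rw [eq_C_of_isEmpty Q] at h ⊢
    rw [eval_C] at h
    rw [h, C_0]
  · by_contra hcon
    push Not at hcon
    let P : MvPolynomial (Fin (m + 1)) k := ∏ t ∈ Finset.range t0, (X 0 - C (x t 0))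
    have hP : P ≠ 0 := by
      refine Finset.prod_ne_zero_iff.mpr fun t _ h => ?_
      have h1 := congrArg (eval fun _ : Fin (m + 1) => x t 0 + 1) h
      simp at h1
    have hP0 : ∀ t < t0, eval (fun j : Fin (m + 1) => x t j) P = 0 := by
      intro t ht
      rw [map_prod]
      exact Finset.prod_eq_zero (Finset.mem_range.mpr ht) (by simp)
    have h1 := dens (P * Q) (fun t => by
      rw [map_mul]
      by_cases ht : t < t0
      · rw [hP0 t ht, zero_mul]
      · rw [hcon t (not_lt.mp ht), mul_zero])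
    exact (mul_ne_zero hP hQ) h1

end Tail

section Start

variable {R : Type*} [CommRing R] {k : Type*} [Field k] [AdmissibleAbsValues k] [Algebra R k]

/-- If the starting height in the fibre is large, then the orbit is dense. -/
theorem start (a b : ∀ i : ℕ, Polynomial (MvPolynomial (Fin i) R)) (n d : ℕ) (hd1 : 1 ≤ d)
    (hD : ∀ i < n, (a i).natDegree ≤ d ∧ (b i).natDegree ≤ d)
    (u v u' v' : Polynomial (MvPolynomial (Fin n) R)) (r : MvPolynomial (Fin n) R)
    (hu : u.natDegree ≤ d) (hv : v.natDegree ≤ d) (hu' : u'.natDegree ≤ d)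
    (hv' : v'.natDegree ≤ d)
    (h1 : u * a n + v * b n = Polynomial.C r)
    (h2 : u' * a n + v' * b n = Polynomial.C r * Polynomial.X ^ (2 * d + 1))
    (x : ℕ → ℕ → k)
    (hx : ∀ t, ∀ i < n, x (t + 1) i = EP (x t) i (a i) (x t i) / EP (x t) i (b i) (x t i))
    (hr : ∀ t, E (x t) n r ≠ 0)
    (dens : ∀ Q : MvPolynomial (Fin n) k, (∀ t, eval (fun j : Fin n => x t j) Q = 0) → Q = 0) :
    ∃ B : ℝ, ∀ y : ℕ → k, B < logHeight₁ (y 0) → (∀ t, EP (x t) n (b n) (y t) ≠ 0) →
      (∀ t, y (t + 1) = EP (x t) n (a n) (y t) / EP (x t) n (b n) (y t)) →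
      ∀ P : Polynomial (MvPolynomial (Fin n) k),
        (∀ t, (P.map (eval fun j : Fin n => x t j)).eval (y t) = 0) → P = 0 := by
  have hdR : (1 : ℝ) ≤ d := by exact_mod_cast hd1
  obtain ⟨L, hL0, hL⟩ := growth a b n d hD (d + 1 / 2) (by linarith) (by linarith) x hx
  obtain ⟨C, hC, hlow⟩ := lower (k := k) n d (a n) (b n) u v u' v' r hu hv hu' hv' h1 h2
  refine ⟨C * L / ((d + 1 : ℝ) - (d + 1 / 2)), fun y hy0 hyb hy P hP => ?_⟩
  by_contra hP0
  set c : ℝ := logHeight₁ (y 0) - C * L / ((d + 1 : ℝ) - (d + 1 / 2)) with hc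
  have hc0 : 0 < c := by linarith
  have hgrow : ∀ t, c * ((d : ℝ) + 1) ^ t ≤ logHeight₁ (y t) := by
    intro t
    refine lower_rec (fun t => logHeight₁ (y t)) (d + 1) (d + 1 / 2) (C * L) (by linarith)
      (by linarith) (mul_nonneg hC hL0) (fun t => ?_) t
    have h3 := hlow (x t) (y t) (hr t) (hyb t)
    rw [← hy t] at h3
    have h4 := mul_le_mul_of_nonneg_left (hL t) hC
    linarith
  obtain ⟨C', hC', hroot⟩ := root_bound (R := k) (k := k) n P
  have hE : ∀ t (Q : MvPolynomial (Fin n) k), E (x t) n Q = eval (fun j : Fin n => x t j) Q := by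
    intro t Q
    rw [E_eq_eval, Algebra.algebraMap_self, map_id]
  have hEP : ∀ t, EP (x t) n P (y t) = (P.map (eval fun j : Fin n => x t j)).eval (y t) := by
    intro t
    unfold EP
    rw [EP_map, Algebra.algebraMap_self]
    congr 2
    rw [show (map (RingHom.id k) : MvPolynomial (Fin n) k →+* _) = RingHom.id _ from
      RingHom.ext fun Q => map_id Q, Polynomial.map_id]
  have hlc : P.leadingCoeff ≠ 0 := Polynomial.leadingCoeff_ne_zero.mpr hP0
  -- the ratio tends to infinity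
  have hq1 : 1 < ((d : ℝ) + 1) / (d + 1 / 2) := by
    rw [one_lt_div (by linarith)]
    linarith
  obtain ⟨t0, ht0⟩ := (tendsto_pow_atTop_atTop_of_one_lt hq1).eventually_gt_atTop
    (C' * L / c) |>.exists_forall_of_atTop
  obtain ⟨t, ht, hQt⟩ := dense_tail n x dens _ hlc t0
  have h5 := hroot (x t) (y t) (by rw [hE]; exact hQt) (by rw [hEP]; exact hP t)
  have h6 := hgrow t
  have h7 := mul_le_mul_of_nonneg_left (hL t) hC'
  have h8 := ht0 t ht
  rw [div_pow, div_lt_iff₀ hc0, div_mul_eq_mul_div, lt_div_iff₀ (by positivity)] at h8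
  nlinarith

end Start

end Pool.Agent.MP_b6294e_ht
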