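import Pool.Agent.Lib.MP_b6294e.Rec

/-!
# Heights of values of polynomials with parameters
-/

set_option linter.style.haveILetI false

namespace Pool.Agent.MP_b6294e_ht

open Height MvPolynomial Pool.Agent.MP_b6294e

section Tuples

variable {k : Type*} [Field k] [AdmissibleAbsValues k]

theorem ht_nonneg (y : k) : 0 ≤ logHeight₁ y := zero_le_logHeight₁ y

/-- The height of a tuple is at most the sum of the heights of its entries. -/
theorem logHeight_le_sum {ι : Type*} [Fintype ι] (x : ι → k) :
    logHeight x ≤ ∑ i, logHeight₁ (x i) := by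
  classical
  let X : (i : ι) → Fin 2 → k := fun i => ![x i, 1]
  have hX : ∀ i, X i ≠ 0 := by
    intro i h
    have := congrFun h 1
    simp [X] at this
  have h1 := logHeight_fun_prod_eq hX
  let f : ι → (ι → Fin 2) := fun i j => if j = i then 0 else 1
  have h2 : x = (fun I : (a : ι) → Fin 2 ↦ ∏ a, X a (I a)) ∘ f := by
    funext i
    simp only [Function.comp_apply, f]
    rw [Finset.prod_eq_single i]
    · simp [X]
    · intro j _ hj
      simp [X, hj]
    · intro h
      exact absurd (Finset.mem_univ _) h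
  have h3 := logHeight_comp_le f (fun I : (a : ι) → Fin 2 ↦ ∏ a, X a (I a))
  rw [← h2, h1] at h3
  refine h3.trans (le_of_eq (Finset.sum_congr rfl fun i _ => ?_))
  rw [logHeight₁_eq_logHeight]

/-- The height of the tuple of the powers of `y`. -/
theorem logHeight_pow_le (m : ℕ) (y : k) :
    logHeight (fun j : Fin (m + 1) => y ^ (j : ℕ)) ≤ m * logHeight₁ y := by
  classical
  let X : (i : Fin m) → Fin 2 → k := fun _ => ![y, 1]
  have hX : ∀ i, X i ≠ 0 := by
    intro i h
    have := congrFun h 1
    simp [X] at this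
  have h1 := logHeight_fun_prod_eq hX
  let f : Fin (m + 1) → (Fin m → Fin 2) := fun i j => if (j : ℕ) < i then 0 else 1
  have h2 : (fun j : Fin (m + 1) => y ^ (j : ℕ)) =
      (fun I : (a : Fin m) → Fin 2 ↦ ∏ a, X a (I a)) ∘ f := by
    funext i
    simp only [Function.comp_apply, f]
    have h3 : ∀ a : Fin m, X a (if (a : ℕ) < i then 0 else 1) = if (a : ℕ) < i then y else 1 := by
      intro a
      split_ifs <;> simp [X]
    rw [Finset.prod_congr rfl fun a _ => h3 a, Finset.prod_ite, Finset.prod_const,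
      Finset.prod_const_one, mul_one]
    congr 1
    have h4 : (Finset.univ.filter fun a : Fin m => (a : ℕ) < i).card = i := by
      have h5 : (Finset.univ.filter fun a : Fin m => (a : ℕ) < i).card =
          ((Finset.range m).filter fun a : ℕ => a < (i : ℕ)).card := by
        rw [← Finset.card_map Fin.valEmbedding]
        congr 1
        ext a
        simp only [Finset.mem_map, Finset.mem_filter, Finset.mem_univ, true_and,
          Fin.valEmbedding_apply, Finset.mem_range]
        constructor
        · rintro ⟨b, hb, rfl⟩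
          exact ⟨b.2, hb⟩
        · rintro ⟨ha, hb⟩
          exact ⟨⟨a, ha⟩, hb, rfl⟩
      rw [h5]
      have h6 : ((Finset.range m).filter fun a : ℕ => a < (i : ℕ)) = Finset.range i := by
        ext a
        simp only [Finset.mem_filter, Finset.mem_range]
        have := i.2
        omega
      rw [h6, Finset.card_range]
    exact h4.symm
  have h3 := logHeight_comp_le f (fun I : (a : Fin m) → Fin 2 ↦ ∏ a, X a (I a))
  rw [← h2, h1] at h3
  refine h3.trans (le_of_eq ?_)
  simp only [X]
  rw [Finset.sum_const, Finset.card_univ, Fintype.card_fin, nsmul_eq_mul,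
    ← logHeight₁_eq_logHeight]

/-- Two linear relations give a height bound. -/
theorem lin_bound {ι : Type*} [Fintype ι] (e : ℕ) (y c : k) (hc : c ≠ 0) (M : Fin 2 × ι → k)
    (w : ι → k) (h0 : ∑ i, M (0, i) * w i = c * y ^ e) (h1 : ∑ i, M (1, i) * w i = c) :
    e * logHeight₁ y ≤ totalWeight k * Real.log (Nat.card ι) + logHeight M + logHeight w := by
  have h2 := logHeight_linearMap_apply_le M w
  have h3 : (fun j => ∑ i, M (j, i) * w i) = c • ![y ^ e, 1] := by
    funext j
    fin_cases j
    · simpa using h0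
    · simpa using h1
  rw [h3, logHeight_smul_eq_logHeight _ hc, ← logHeight₁_eq_logHeight, logHeight₁_pow] at h2
  exact h2

end Tuples

section Param

variable {R : Type*} [CommRing R] {k : Type*} [Field k] [AdmissibleAbsValues k] [Algebra R k]

/-- One plus the sum of the heights of the first `n` coordinates. -/
noncomputable def S (x : ℕ → k) (n : ℕ) : ℝ := 1 + ∑ j ∈ Finset.range n, logHeight₁ (x j)

theorem one_le_S (x : ℕ → k) (n : ℕ) : 1 ≤ S x n := by
  unfold S
  have : 0 ≤ ∑ j ∈ Finset.range n, logHeight₁ (x j) :=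
    Finset.sum_nonneg fun j _ => ht_nonneg _
  linarith

theorem ht_le_S (x : ℕ → k) (n j : ℕ) (hj : j < n) : logHeight₁ (x j) ≤ S x n := by
  unfold S
  have : logHeight₁ (x j) ≤ ∑ j ∈ Finset.range n, logHeight₁ (x j) :=
    Finset.single_le_sum (f := fun j => logHeight₁ (x j)) (fun j _ => ht_nonneg _)
      (Finset.mem_range.mpr hj)
  linarith

theorem E_bound (n : ℕ) (f : MvPolynomial (Fin n) R) :
    ∃ C : ℝ, 0 ≤ C ∧ ∀ x : ℕ → k, logHeight₁ (E x n f) ≤ C * S x n := by
  induction f using MvPolynomial.induction_on with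
  | C c =>
    refine ⟨logHeight₁ (algebraMap R k c), ht_nonneg _, fun x => ?_⟩
    rw [← MvPolynomial.algebraMap_eq, AlgHom.commutes]
    exact le_mul_of_one_le_right (ht_nonneg _) (one_le_S x n)
  | add p q hp hq =>
    obtain ⟨C, hC, h1⟩ := hp
    obtain ⟨C', hC', h2⟩ := hq
    have hw : 0 ≤ (totalWeight k : ℝ) * Real.log 2 :=
      mul_nonneg (Nat.cast_nonneg _) (Real.log_nonneg (by norm_num))
    refine ⟨totalWeight k * Real.log 2 + C + C', by positivity, fun x => ?_⟩
    rw [map_add]
    have h3 := logHeight₁_add_le (E x n p) (E x n q)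
    have h4 := one_le_S x n
    nlinarith [h1 x, h2 x]
  | mul_X p i hp =>
    obtain ⟨C, hC, h1⟩ := hp
    refine ⟨C + 1, by positivity, fun x => ?_⟩
    rw [map_mul]
    have h3 := logHeight₁_mul_le (E x n p) (E x n (X i : MvPolynomial (Fin n) R))
    have h4 : (E x n (X i : MvPolynomial (Fin n) R)) = x i := aeval_X _ i
    rw [h4] at h3 ⊢
    have h5 := ht_le_S x n i i.2
    linarith [h1 x]

/-- A uniform bound for a finite family. -/
theorem E_bound_fam {ι : Type*} [Fintype ι] (n : ℕ) (f : ι → MvPolynomial (Fin n) R) :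
    ∃ C : ℝ, 0 ≤ C ∧ ∀ x : ℕ → k, logHeight (fun i => E x n (f i)) ≤ C * S x n := by
  choose C hC hb using fun i => E_bound (k := k) n (f i)
  refine ⟨∑ i, C i, Finset.sum_nonneg fun i _ => hC i, fun x => ?_⟩
  refine (logHeight_le_sum _).trans ?_
  rw [Finset.sum_mul]
  exact Finset.sum_le_sum fun i _ => hb i x

omit [AdmissibleAbsValues k] in
theorem EP_eq_sum (x : ℕ → k) (n D : ℕ) (f : Polynomial (MvPolynomial (Fin n) R))
    (hD : f.natDegree ≤ D) (y : k) :
    EP x n f y = ∑ i : Fin (D + 1), E x n (f.coeff i) * y ^ (i : ℕ) := by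
  unfold EP
  rw [Polynomial.eval_eq_sum_range' (n := D + 1)
    (Nat.lt_succ_iff.mpr (Polynomial.natDegree_map_le.trans hD)), Finset.sum_range]
  refine Finset.sum_congr rfl fun i _ => ?_
  rw [Polynomial.coeff_map]
  rfl

/-- Upper bound for the height of a value of a rational function with parameters. -/
theorem upper (n D : ℕ) (f g : Polynomial (MvPolynomial (Fin n) R))
    (hf : f.natDegree ≤ D) (hg : g.natDegree ≤ D) :
    ∃ C : ℝ, 0 ≤ C ∧ ∀ (x : ℕ → k) (y : k),
      logHeight₁ (EP x n f y / EP x n g y) ≤ D * logHeight₁ y + C * S x n := by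
  let q : Fin 2 × Fin (D + 1) → MvPolynomial (Fin n) R := fun p =>
    if p.1 = 0 then f.coeff p.2 else g.coeff p.2
  obtain ⟨C, hC, h1⟩ := E_bound_fam (k := k) n q
  have hw : 0 ≤ (totalWeight k : ℝ) * Real.log (Nat.card (Fin (D + 1))) :=
    mul_nonneg (Nat.cast_nonneg _) (Real.log_nonneg (by simp))
  refine ⟨totalWeight k * Real.log (Nat.card (Fin (D + 1))) + C, by positivity,
    fun x y => ?_⟩
  rw [logHeight₁_div_eq_logHeight]
  have h2 := logHeight_linearMap_apply_le (fun p => E x n (q p))
    (fun j : Fin (D + 1) => y ^ (j : ℕ))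
  have h3 : (fun j => ∑ i, E x n (q (j, i)) * y ^ (i : ℕ)) = ![EP x n f y, EP x n g y] := by
    funext j
    fin_cases j
    · simp [q, EP_eq_sum x n D f hf]
    · simp [q, EP_eq_sum x n D g hg]
  rw [h3] at h2
  have h4 := logHeight_pow_le D y
  have h5 := one_le_S x n
  nlinarith [h1 x]

/-- Roots have bounded height. -/
theorem root_bound (n : ℕ) (f : Polynomial (MvPolynomial (Fin n) R)) :
    ∃ C : ℝ, 0 ≤ C ∧ ∀ (x : ℕ → k) (y : k), E x n f.leadingCoeff ≠ 0 → EP x n f y = 0 →
      logHeight₁ y ≤ C * S x n := by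
  rcases Nat.eq_zero_or_pos f.natDegree with h0 | h0
  · refine ⟨0, le_rfl, fun x y h1 h2 => absurd ?_ h1⟩
    rw [EP_eq_sum x n 0 f h0.le] at h2
    simpa [Polynomial.leadingCoeff, h0] using h2
  obtain ⟨m, hm⟩ : ∃ m, f.natDegree = m + 1 := ⟨_, (Nat.succ_pred_eq_of_pos h0).symm⟩
  let q : Fin 2 × Fin (m + 1) → MvPolynomial (Fin n) R := fun p =>
    if p.1 = 0 then - f.coeff p.2 else (if (p.2 : ℕ) = 0 then f.leadingCoeff else 0)
  obtain ⟨C, hC, h1⟩ := E_bound_fam (k := k) n q
  have hw : 0 ≤ (totalWeight k : ℝ) * Real.log (Nat.card (Fin (m + 1))) :=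
    mul_nonneg (Nat.cast_nonneg _) (Real.log_nonneg (by simp))
  refine ⟨totalWeight k * Real.log (Nat.card (Fin (m + 1))) + C, by positivity,
    fun x y hx hy => ?_⟩
  have h2 := lin_bound (m + 1) y (E x n f.leadingCoeff) hx (fun p => E x n (q p))
    (fun j : Fin (m + 1) => y ^ (j : ℕ))
    (by
      rw [EP_eq_sum x n (m + 1) f hm.le, Fin.sum_univ_castSucc] at hy
      have h3 : E x n (f.coeff (Fin.last (m + 1) : ℕ)) = E x n f.leadingCoeff := by
        rw [Polynomial.leadingCoeff, hm]
        rfl
      rw [h3] at hy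
      simp only [Fin.val_last, Fin.val_castSucc] at hy
      simp only [q, if_true, map_neg, neg_mul, Finset.sum_neg_distrib]
      linear_combination -hy)
    (by
      rw [Finset.sum_eq_single 0]
      · simp [q]
      · intro j _ hj
        simp [q, hj]
      · intro h
        exact absurd (Finset.mem_univ _) h)
  have h4 := logHeight_pow_le m y
  have h5 := one_le_S x n
  push_cast at h2
  nlinarith [h1 x]

/-- Lower bound for the height of a value, from two Bezout relations. -/
theorem lower (n d : ℕ) (f g u v u' v' : Polynomial (MvPolynomial (Fin n) R))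
    (r : MvPolynomial (Fin n) R)
    (hu : u.natDegree ≤ d) (hv : v.natDegree ≤ d) (hu' : u'.natDegree ≤ d)
    (hv' : v'.natDegree ≤ d)
    (h1 : u * f + v * g = Polynomial.C r)
    (h2 : u' * f + v' * g = Polynomial.C r * Polynomial.X ^ (2 * d + 1)) :
    ∃ C : ℝ, 0 ≤ C ∧ ∀ (x : ℕ → k) (y : k), E x n r ≠ 0 → EP x n g y ≠ 0 →
      (d + 1) * logHeight₁ y ≤ logHeight₁ (EP x n f y / EP x n g y) + C * S x n := by
  let q : Fin 2 × (Fin (d + 1) × Fin 2) → MvPolynomial (Fin n) R := fun p =>
    if p.1 = 0 then (if p.2.2 = 0 then u'.coeff p.2.1 else v'.coeff p.2.1)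
    else (if p.2.2 = 0 then u.coeff p.2.1 else v.coeff p.2.1)
  obtain ⟨C, hC, hq⟩ := E_bound_fam (k := k) n q
  have hw : 0 ≤ (totalWeight k : ℝ) * Real.log (Nat.card (Fin (d + 1) × Fin 2)) :=
    mul_nonneg (Nat.cast_nonneg _) (Real.log_nonneg (by simp; nlinarith [Nat.cast_nonneg (α := ℝ) d]))
  refine ⟨totalWeight k * Real.log (Nat.card (Fin (d + 1) × Fin 2)) + C, by positivity,
    fun x y hr hg => ?_⟩
  have hEPm : ∀ p p' : Polynomial (MvPolynomial (Fin n) R),
      EP x n (p * p') y = EP x n p y * EP x n p' y := by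
    intro p p'
    unfold EP
    rw [Polynomial.map_mul, Polynomial.eval_mul]
  have hEPa : ∀ p p' : Polynomial (MvPolynomial (Fin n) R),
      EP x n (p + p') y = EP x n p y + EP x n p' y := by
    intro p p'
    unfold EP
    rw [Polynomial.map_add, Polynomial.eval_add]
  have hEPC : ∀ c : MvPolynomial (Fin n) R, EP x n (Polynomial.C c) y = E x n c := by
    intro c
    unfold EP
    rw [Polynomial.map_C, Polynomial.eval_C]
    rfl
  have hEPX : ∀ e : ℕ, EP x n (Polynomial.X ^ e : Polynomial (MvPolynomial (Fin n) R)) y =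
      y ^ e := by
    intro e
    unfold EP
    rw [Polynomial.map_pow, Polynomial.map_X, Polynomial.eval_pow, Polynomial.eval_X]
  have e1 := congrArg (fun p => EP x n p y) h1
  have e2 := congrArg (fun p => EP x n p y) h2
  simp only [hEPm, hEPa, hEPC, hEPX] at e1 e2
  have hfg : (![EP x n f y, EP x n g y] : Fin 2 → k) ≠ 0 := by
    intro h
    have := congrFun h 1
    exact hg (by simpa using this)
  have hyy : (fun j : Fin (d + 1) => y ^ (j : ℕ)) ≠ 0 := by
    intro h
    have := congrFun h 0
    simp at this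
  have hsum : ∀ (p p' : Polynomial (MvPolynomial (Fin n) R)), p.natDegree ≤ d →
      p'.natDegree ≤ d → ∑ i : Fin (d + 1) × Fin 2,
        E x n (if i.2 = 0 then p.coeff i.1 else p'.coeff i.1) *
          (y ^ (i.1 : ℕ) * (![EP x n f y, EP x n g y] : Fin 2 → k) i.2) =
        EP x n p y * EP x n f y + EP x n p' y * EP x n g y := by
    intro p p' hp hp'
    rw [Fintype.sum_prod_type, EP_eq_sum x n d p hp, EP_eq_sum x n d p' hp', Finset.sum_mul,
      Finset.sum_mul, ← Finset.sum_add_distrib]
    refine Finset.sum_congr rfl fun i _ => ?_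
    rw [Fin.sum_univ_two]
    simp only [if_true, Matrix.cons_val_zero, Matrix.cons_val_one, one_ne_zero, if_false,
      Fin.isValue]
    ring
  have h3 := lin_bound (2 * d + 1) y (E x n r) hr (fun p => E x n (q p))
    (fun i : Fin (d + 1) × Fin 2 => y ^ (i.1 : ℕ) *
      (![EP x n f y, EP x n g y] : Fin 2 → k) i.2)
    (by
      simp only [q, if_true]
      rw [hsum u' v' hu' hv', e2])
    (by
      simp only [q, one_ne_zero, if_false]
      rw [hsum u v hu hv, e1])
  rw [logHeight_fun_mul_eq hyy hfg, ← logHeight₁_div_eq_logHeight] at h3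
  have h4 := logHeight_pow_le d y
  have h5 := one_le_S x n
  push_cast at h3
  nlinarith [hq x]

end Param

end Pool.Agent.MP_b6294e_ht
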